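import Mathlib
import Pool.Agent.Y327.ZarThm
import Pool.Agent.TH314.CSD.Scales

/-! # MP_edeaa2_an: generic forms

Let `d ≥ 3`, `p` its smallest prime factor, and let `k` be a countable subfield of `ℝ`.

1. Let `g` be a counterexample to the conjecture of Cassels and Swinnerton-Dyer and `h₀` a recurrent
   form in its orbit closure. There is a divisor `s > 1` of `d` such that in the orbit closure of
   `h₀` the following matrices `h` are dense. (a) Every polynomial over `k` in the entries which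
   vanishes at `h` vanishes at all `h'` with the same determinant and `h' σ h'⁻¹ = h σ h⁻¹` for all
   rational `σ` with `h σ h⁻¹` diagonal. (b) In each row of `h` there are `s` entries such that these
   `d s` entries, any one of them excepted, are algebraically independent over `k`, and after
   multiplication of `h` by a suitable `c > 0` all `d s` entries are. If `d` is prime, then `s = d`
   and these are all entries of the matrix.
2. If the product of the rows of `g` is bounded away from zero at the nonzero integer points, then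
   it is proportional to an integral form if and only if no `h` in the orbit closure of `g` has `p`
   entries in each row such that these `d p` entries, any one excepted, are algebraically
   independent over `k`.
3. The conjecture in dimension `d` is equivalent to: if `p` entries in each row of `g` are together
   algebraically independent over `k` (for prime `d`: if all entries of `g` are algebraically
   independent over `k`), then the product of the rows of `g` is not bounded away from zero. -/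

set_option autoImplicit false

open Filter Topology

namespace Pool.Agent.Results.MP_edeaa2_an.GenericForms

variable {d : ℕ}

/-- the product of the linear forms given by the rows of `h`, at an integer point -/
noncomputable def F (h : Matrix (Fin d) (Fin d) ℝ) (x : Fin d → ℤ) : ℝ :=
  ∏ i : Fin d, ∑ j : Fin d, h i j * (x j : ℝ)

/-- the product of the linear forms is proportional to a form with integer coefficients -/
def PropInt (h : Matrix (Fin d) (Fin d) ℝ) : Prop :=
  ∃ c : ℝ, c ≠ 0 ∧ ∀ m : Fin d →₀ ℕ, ∃ z : ℤ, MvPolynomial.coeff m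
    (c • (∏ i : Fin d, ∑ j : Fin d,
      MvPolynomial.C (h i j) * MvPolynomial.X j : MvPolynomial (Fin d) ℝ)) = (z : ℝ)

/-- the product of the linear forms is bounded away from zero at the nonzero integer points -/
def BoundedBelow (h : Matrix (Fin d) (Fin d) ℝ) : Prop :=
  ∃ ν : ℝ, 0 < ν ∧ ∀ x : Fin d → ℤ, x ≠ 0 → ν ≤ |F h x|

/-- The closure of the set of matrices `diag(a) g γ` with `a` positive of product one and `γ`
integral of determinant `±1`. -/
def OrbitClosure (g : Matrix (Fin d) (Fin d) ℝ) : Set (Matrix (Fin d) (Fin d) ℝ) :=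
  closure {h | ∃ (a : Fin d → ℝ) (γ : Matrix (Fin d) (Fin d) ℤ), (∀ i, 0 < a i) ∧ ∏ i, a i = 1 ∧
    |γ.det| = 1 ∧ h = Matrix.diagonal a * g * γ.map (Int.cast : ℤ → ℝ)}

/-- The orbit closure of `h` is minimal. -/
def Recurrent (h : Matrix (Fin d) (Fin d) ℝ) : Prop :=
  ∀ h' ∈ OrbitClosure h, h ∈ OrbitClosure h'

/-- the rational matrices which `h` conjugates to diagonal matrices -/
def Sym (h : Matrix (Fin d) (Fin d) ℝ) : Set (Matrix (Fin d) (Fin d) ℚ) :=
  {σ | (h * σ.map (Rat.cast : ℚ → ℝ) * h⁻¹).IsDiag}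

/-- `h'` has the same determinant and conjugates each `σ` in `Sym h` to the same diagonal matrix -/
def SameType (h h' : Matrix (Fin d) (Fin d) ℝ) : Prop :=
  h'.det = h.det ∧ ∀ σ ∈ Sym h,
    h' * σ.map (Rat.cast : ℚ → ℝ) * h'⁻¹ = h * σ.map (Rat.cast : ℚ → ℝ) * h⁻¹

/-- The entries of `h` in the positions of the set `E` are algebraically independent over `k`. -/
def Indep (k : Subfield ℝ) (h : Matrix (Fin d) (Fin d) ℝ) (E : Set (Fin d × Fin d)) : Prop :=
  AlgebraicIndependent k (fun e : E => h e.1.1 e.1.2)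

/-- the positions in the row `i` and a column in `T i`, for any `i` -/
def positions (T : Fin d → Finset (Fin d)) : Set (Fin d × Fin d) := {e | e.2 ∈ T e.1}

lemma closure_eq (g : Matrix (Fin d) (Fin d) ℝ) : OrbitClosure g = closure (H715R2.Orb g) := by
  unfold OrbitClosure H715R2.Orb
  congr 1
  ext h
  constructor
  · rintro ⟨a, γ, ha0, ha1, hγ, hh⟩
    exact ⟨a, γ, ha0, ha1, Int.isUnit_iff_abs_eq.2 hγ, hh⟩
  · rintro ⟨a, γ, ha0, ha1, hγ, hh⟩
    exact ⟨a, γ, ha0, ha1, Int.isUnit_iff_abs_eq.1 hγ, hh⟩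

lemma recurrent_iff (h : Matrix (Fin d) (Fin d) ℝ) :
    Recurrent h ↔ TH314.CSD.Recurrent h := by
  unfold Recurrent TH314.CSD.Recurrent
  simp only [closure_eq]

lemma minB_of_recurrent {h : Matrix (Fin d) (Fin d) ℝ} (hh : TH314.CSD.Recurrent h) :
    Y327.MinB id (closure (H715R2.Orb h)) := by
  refine ⟨isClosed_closure, ⟨h, subset_closure (H715R2.mem_orb_self h)⟩,
    Y327.invB_of_inv (TH314.CSD.inv_closure h) id, fun Z hZ hZc hZne hZinv => ?_⟩
  obtain ⟨h', hh'⟩ := hZne
  refine subset_antisymm hZ ?_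
  have h1 : closure (H715R2.Orb h') ⊆ Z := by
    refine closure_minimal ?_ hZc
    rintro _ ⟨a, γ, ha0, ha1, hγ, rfl⟩
    exact hZinv h' hh' a γ ⟨ha0, ha1, fun i j hij => by rw [show i = j from hij]⟩ hγ
  exact (TH314.CSD.orb_closure_trans (hh h' (hZ hh'))).trans h1

lemma kap_map (f : Module.End ℚ (Fin d → ℚ)) :
    Y327.kap f = (LinearMap.toMatrix' f).map (Rat.cast : ℚ → ℝ) := by
  ext a b
  rw [Y327.kap_apply, Matrix.map_apply, LinearMap.toMatrix'_apply]

lemma mem_Sym (h : Matrix (Fin d) (Fin d) ℝ) (f : Module.End ℚ (Fin d → ℚ)) :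
    LinearMap.toMatrix' f ∈ Sym h ↔ Y327.Dg h f := by
  unfold Sym Y327.Dg Matrix.IsDiag
  rw [Set.mem_ofPred_eq, kap_map]
  rfl

/-- matrices of the same type -/
lemma exists_block {h h' : Matrix (Fin d) (Fin d) ℝ} (hh : h.det ≠ 0) (hs : SameType h h') :
    ∃ K : Matrix (Fin d) (Fin d) ℝ, (∀ i j, ¬ Y327.Sam h i j → K i j = 0) ∧ K.det = 1 ∧
      h' = K * h := by
  have hu : IsUnit h.det := isUnit_iff_ne_zero.2 hh
  have hu' : IsUnit h'.det := by rw [hs.1]; exact hu
  refine ⟨h' * h⁻¹, fun i j hij => ?_, ?_, ?_⟩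
  · unfold Y327.Sam at hij
    push Not at hij
    obtain ⟨f, hf, hne⟩ := hij
    have h1 := hs.2 _ ((mem_Sym h f).2 hf)
    rw [← kap_map] at h1
    have h2 := Y327.diag_of_Dg hf
    have h3 : (h' * h⁻¹) * Matrix.diagonal (fun i => (h * Y327.kap f * h⁻¹) i i) =
        Matrix.diagonal (fun i => (h * Y327.kap f * h⁻¹) i i) * (h' * h⁻¹) := by
      rw [← h2]
      conv_rhs => rw [← h1]
      calc (h' * h⁻¹) * (h * Y327.kap f * h⁻¹) = h' * (h⁻¹ * h) * Y327.kap f * h⁻¹ := by
            simp only [Matrix.mul_assoc]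
        _ = h' * Y327.kap f * (h'⁻¹ * h') * h⁻¹ := by
            rw [Matrix.nonsing_inv_mul _ hu, Matrix.nonsing_inv_mul _ hu', Matrix.mul_one,
              Matrix.mul_one]
        _ = _ := by simp only [Matrix.mul_assoc]
    have h4 := congrFun (congrFun h3 i) j
    rw [Matrix.mul_diagonal, Matrix.diagonal_mul] at h4
    have h5 : (h' * h⁻¹) i j * ((h * Y327.kap f * h⁻¹) j j - (h * Y327.kap f * h⁻¹) i i) = 0 := by
      linear_combination h4
    exact (mul_eq_zero.1 h5).resolve_right (sub_ne_zero.2 (Ne.symm hne))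
  · rw [Matrix.det_mul, hs.1, Matrix.det_nonsing_inv, Ring.inverse_eq_inv', mul_inv_cancel₀ hh]
  · rw [Matrix.mul_assoc, Matrix.nonsing_inv_mul _ hu, Matrix.mul_one]

lemma Indep.mono {k : Subfield ℝ} {h : Matrix (Fin d) (Fin d) ℝ} {E E' : Set (Fin d × Fin d)}
    (hE : E' ⊆ E) (hi : Indep k h E) : Indep k h E' :=
  hi.comp (Set.inclusion hE) (Set.inclusion_injective hE)

/-- a recurrent form in the orbit closure -/
lemma exists_recurrent (hd : 0 < d) {g : Matrix (Fin d) (Fin d) ℝ} (hg : g.det ≠ 0) {ν : ℝ}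
    (hν : 0 < ν) (hF : ∀ x : Fin d → ℤ, x ≠ 0 → ν ≤ |F g x|) :
    ∃ M ⊆ closure (H715R2.Orb g), Y327.MinB id M :=
  Y327.exists_minB hd id (abs_pos.2 hg) hν isClosed_closure
    ⟨g, subset_closure (H715R2.mem_orb_self g)⟩
    (Y327.invB_of_inv (TH314.CSD.inv_closure g) id)
    (fun _ hh => H715R2.abs_det_closure hh) (fun _ hh => H715R2.hasNu_closure hF hh)

/-- smaller sets of columns -/
lemma exists_sub {s p : ℕ} (hp : p ≤ s) {T : Fin d → Finset (Fin d)} (hT : ∀ i, (T i).card = s) :
    ∃ T' : Fin d → Finset (Fin d), (∀ i, (T' i).card = p) ∧ ∀ i, T' i ⊆ T i := by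
  choose T' h1 h2 using fun i => Finset.exists_subset_card_eq (s := T i) (n := p) (by rw [hT]; exact hp)
  exact ⟨T', h2, h1⟩

theorem result (d : ℕ) (hd : 3 ≤ d) (k : Subfield ℝ) (hk : Countable k) :
    -- 1. the generic forms in a minimal set
    (∀ g : Matrix (Fin d) (Fin d) ℝ, g.det ≠ 0 → ¬ PropInt g → BoundedBelow g →
      ∀ h₀ ∈ OrbitClosure g, Recurrent h₀ → ∃ s : ℕ, 1 < s ∧ s ∣ d ∧
        ∀ U : Set (Matrix (Fin d) (Fin d) ℝ), IsOpen U → (U ∩ OrbitClosure h₀).Nonempty →
          ∃ h ∈ U ∩ OrbitClosure h₀,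
            (∀ P : MvPolynomial (Fin d × Fin d) k,
              MvPolynomial.aeval (fun e : Fin d × Fin d => h e.1 e.2) P = 0 →
              ∀ h', SameType h h' →
                MvPolynomial.aeval (fun e : Fin d × Fin d => h' e.1 e.2) P = 0) ∧
            ∃ T : Fin d → Finset (Fin d), (∀ i, (T i).card = s) ∧
              (∀ e ∈ positions T, Indep k h (positions T \ {e})) ∧
              ∃ c : ℝ, 0 < c ∧ Indep k (c • h) (positions T)) ∧
    -- 2. a criterion
    (∀ g : Matrix (Fin d) (Fin d) ℝ, g.det ≠ 0 → BoundedBelow g →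
      (PropInt g ↔ ∀ h ∈ OrbitClosure g, ∀ T : Fin d → Finset (Fin d),
        (∀ i, (T i).card = d.minFac) → ¬ ∀ e ∈ positions T, Indep k h (positions T \ {e}))) ∧
    -- 3. the conjecture
    ((∀ g : Matrix (Fin d) (Fin d) ℝ, g.det ≠ 0 → BoundedBelow g → PropInt g) ↔
      ∀ g : Matrix (Fin d) (Fin d) ℝ, g.det ≠ 0 → ∀ T : Fin d → Finset (Fin d),
        (∀ i, (T i).card = d.minFac) → Indep k g (positions T) → ¬ BoundedBelow g) := by
  classical
  have hd0 : 0 < d := by omega
  have hp1 : 1 < d.minFac := (Nat.minFac_prime (by omega)).one_lt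
  -- two entries of a row
  have htwo : ∀ (T : Fin d → Finset (Fin d)), (∀ i, (T i).card = d.minFac) →
      ∀ i, ∃ b ∈ T i, ∃ b' ∈ T i, b ≠ b' := by
    intro T hT i
    exact Finset.one_lt_card.1 (by rw [hT i]; exact hp1)
  have hcore : ∀ g : Matrix (Fin d) (Fin d) ℝ, g.det ≠ 0 → ¬ PropInt g → BoundedBelow g →
      ∃ h ∈ OrbitClosure g, ∃ T : Fin d → Finset (Fin d), (∀ i, (T i).card = d.minFac) ∧
        (∀ e ∈ positions T, Indep k h (positions T \ {e})) ∧
        ∃ c : ℝ, 0 < c ∧ Indep k (c • h) (positions T) := by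
    rintro g hg hint ⟨ν, hν, hF⟩
    obtain ⟨M, hMg, hM⟩ := exists_recurrent hd0 hg hν hF
    obtain ⟨s, hs1, hsd, hgen⟩ := Y327.generic_frame hd hg hν hF hint hMg hM
    obtain ⟨h, hh, -, T, hT, hT1, c, hc, hT2⟩ := hgen k hk Set.univ isOpen_univ
      (by rw [Set.univ_inter]; exact hM.ne)
    rw [Set.univ_inter] at hh
    obtain ⟨T', hT', hTT'⟩ := exists_sub (Nat.minFac_le_of_dvd hs1 hsd) hT
    refine ⟨h, by rw [closure_eq]; exact hMg hh, T', hT', fun e he => ?_, c, hc, ?_⟩
    · refine Indep.mono ?_ (hT1 e (hTT' _ he))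
      rintro e' ⟨he', hne⟩
      exact ⟨hTT' _ he', hne⟩
    · exact Indep.mono (fun e he => hTT' _ he) hT2
  refine ⟨?_, ?_, ?_⟩
  · rintro g hg hint ⟨ν, hν, hF⟩ h₀ hh₀ hrec
    rw [closure_eq] at hh₀
    have hM := minB_of_recurrent ((recurrent_iff h₀).1 hrec)
    have hMg : closure (H715R2.Orb h₀) ⊆ closure (H715R2.Orb g) :=
      TH314.CSD.orb_closure_trans hh₀
    obtain ⟨s, hs1, hsd, hgen⟩ := Y327.generic_frame hd hg hν hF hint hMg hM
    rw [closure_eq]
    refine ⟨s, hs1, hsd, fun U hU hUM => ?_⟩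
    obtain ⟨h, hh, hP, T, hT, hT1, c, hc, hT2⟩ := hgen k hk U hU hUM
    refine ⟨h, hh, fun P hPh h' hh' => ?_, T, hT, hT1, c, hc, hT2⟩
    have hdet : h.det ≠ 0 := by
      rw [← abs_ne_zero, H715R2.abs_det_closure (hMg hh.2), abs_ne_zero]
      exact hg
    obtain ⟨K, hK, hKd, rfl⟩ := exists_block hdet hh'
    exact hP P hPh K hK hKd
  · rintro g hg ⟨ν, hν, hF⟩
    constructor
    · intro hP h hh T hT hI
      rw [closure_eq] at hh
      have h1 := Y327.propInt_closure hd hg hν hF hP hh
      set i₀ : Fin d := ⟨0, by omega⟩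
      set i₁ : Fin d := ⟨1, by omega⟩
      obtain ⟨b, hb, b', hb', hbb⟩ := htwo T hT i₀
      obtain ⟨b₁, hb₁, -⟩ := htwo T hT i₁
      have hne : ∀ b, ((i₀, b) : Fin d × Fin d) ≠ (i₁, b₁) := by
        intro b h0
        have := congrArg Fin.val (Prod.ext_iff.1 h0).1
        simp [i₀, i₁] at this
      exact Y327.not_algInd_of_propInt hν (H715R2.hasNu_closure hF hh) h1 hbb
        (E := positions T \ {(i₁, b₁)}) ⟨hb, hne b⟩ ⟨hb', hne b'⟩ (hI (i₁, b₁) hb₁)
    · intro hno
      by_contra hint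
      obtain ⟨h, hh, T, hT, hT1, -⟩ := hcore g hg hint ⟨ν, hν, hF⟩
      exact hno h hh T hT hT1
  · constructor
    · rintro hQ g hg T hT hI ⟨ν, hν, hF⟩
      obtain ⟨b, hb, b', hb', hbb⟩ := htwo T hT ⟨0, hd0⟩
      exact Y327.not_algInd_of_propInt hν hF (hQ g hg ⟨ν, hν, hF⟩) hbb
        (E := positions T) hb hb' hI
    · rintro hQ g hg ⟨ν, hν, hF⟩
      by_contra hint
      obtain ⟨h, hh, T, hT, -, c, hc, hI⟩ := hcore g hg hint ⟨ν, hν, hF⟩
      rw [closure_eq] at hh
      refine hQ (c • h) ?_ T hT hI ⟨c ^ d * ν, by positivity, fun x hx => ?_⟩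
      · rw [Matrix.det_smul]
        refine mul_ne_zero (pow_ne_zero _ hc.ne') ?_
        rw [← abs_ne_zero, H715R2.abs_det_closure hh, abs_ne_zero]
        exact hg
      · have h1 : F (c • h) x = c ^ d * F h x := by
          unfold F
          have h2 : ∀ i, ∑ j, (c • h) i j * (x j : ℝ) = c * ∑ j, h i j * (x j : ℝ) := by
            intro i
            rw [Finset.mul_sum]
            exact Finset.sum_congr rfl fun j _ => by rw [Matrix.smul_apply, smul_eq_mul, mul_assoc]
          simp only [h2, Finset.prod_mul_distrib, Finset.prod_const, Finset.card_univ,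
            Fintype.card_fin]
        rw [h1, abs_mul, abs_of_pos (pow_pos hc d)]
        exact mul_le_mul_of_nonneg_left (H715R2.hasNu_closure hF hh x hx) (by positivity)

end Pool.Agent.Results.MP_edeaa2_an.GenericForms
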