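import Mathlib
import Pool.Agent.Y327.ValThm
import Pool.Agent.Y327.ManyEx
import Pool.Agent.TH314.CSD.Scales

/-! # MP_edeaa2_an: the values of the generic forms of a counterexample

Let `d ≥ 3`, let `g` be a counterexample to the conjecture of Cassels and Swinnerton-Dyer (the
product `F g` of the rows of `g` is bounded away from zero at the nonzero integer points and is not
proportional to an integral form), and let `p` be the smallest prime factor of `d`.

1. Let `h₀` be a recurrent form in the orbit closure of `g`. There is a divisor `s > 1` of `d` such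
   that in the orbit closure of `h₀` the forms `h` with the following properties are dense. (a) For
   nonzero integer points `x, y`, `F h x = F h y` if and only if `y = σ x` for a rational matrix `σ`
   of determinant one for which `h σ h⁻¹` is diagonal. If `d` is prime, all values of `F h` at
   nonzero integer points are distinct. (b) For every open set `U` which contains a value of `F h₀`
   there are at least `c (log X) ^ (d - d / s)` distinct values of `F h` in `U` at the nonzero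
   integer points of norm at most `X`, for all large `X`; the exponent is `d - 1` if `d` is prime.
2. For such `U` and all large `X` there is an integral change of variables `γ` such that `F h₀ ∘ γ`
   has at least `c (log X) ^ (d - d / s)` distinct values in `U` at these points.
3. If every product of `d` linear forms with the same absolute determinant as `g` has a value of
   absolute value `< T`, then for all large `X` there is `γ` such that `F g ∘ γ` has at least
   `c (log X) ^ (d - d / p)` distinct values of absolute value `< T` at these points. -/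

set_option autoImplicit false

open Filter Topology

namespace Pool.Agent.Results.MP_edeaa2_an.ManyValues

variable {d : ℕ}

/-- the product of the linear forms given by the rows of `h`, at an integer point -/
noncomputable def F (h : Matrix (Fin d) (Fin d) ℝ) (x : Fin d → ℤ) : ℝ :=
  ∏ i : Fin d, ∑ j : Fin d, h i j * (x j : ℝ)

/-- the product of the linear forms is proportional to a form with integer coefficients -/
def PropInt (h : Matrix (Fin d) (Fin d) ℝ) : Prop :=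
  ∃ c : ℝ, c ≠ 0 ∧ ∀ m : Fin d →₀ ℕ, ∃ z : ℤ, MvPolynomial.coeff m
    (c • (∏ i : Fin d, ∑ j : Fin d,
      MvPolynomial.C (h i j) * MvPolynomial.X j : MvPolynomial (Fin d) ℝ)) = (z : ℝ)

/-- The closure of the set of matrices `diag(a) g γ` with `a` positive of product one and `γ`
integral of determinant `±1`. -/
def OrbitClosure (g : Matrix (Fin d) (Fin d) ℝ) : Set (Matrix (Fin d) (Fin d) ℝ) :=
  closure {h | ∃ (a : Fin d → ℝ) (γ : Matrix (Fin d) (Fin d) ℤ), (∀ i, 0 < a i) ∧ ∏ i, a i = 1 ∧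
    |γ.det| = 1 ∧ h = Matrix.diagonal a * g * γ.map (Int.cast : ℤ → ℝ)}

/-- The orbit closure of `h` is minimal. -/
def Recurrent (h : Matrix (Fin d) (Fin d) ℝ) : Prop :=
  ∀ h' ∈ OrbitClosure h, h ∈ OrbitClosure h'

/-- The values of `F g` in `U` at the nonzero integer points with coordinates of absolute value at
most `X`. -/
def Values (g : Matrix (Fin d) (Fin d) ℝ) (U : Set ℝ) (X : ℝ) : Set ℝ :=
  {t | ∃ x : Fin d → ℤ, x ≠ 0 ∧ (∀ i, |(x i : ℝ)| ≤ X) ∧ F g x = t ∧ t ∈ U}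

/-- the rational matrices which `h` conjugates to diagonal matrices -/
def Sym (h : Matrix (Fin d) (Fin d) ℝ) : Set (Matrix (Fin d) (Fin d) ℚ) :=
  {σ | (h * σ.map (Rat.cast : ℚ → ℝ) * h⁻¹).IsDiag}

lemma closure_eq (g : Matrix (Fin d) (Fin d) ℝ) : OrbitClosure g = closure (H715R2.Orb g) := by
  unfold OrbitClosure H715R2.Orb
  congr 1
  ext h
  constructor
  · rintro ⟨a, γ, ha0, ha1, hγ, hh⟩
    exact ⟨a, γ, ha0, ha1, Int.isUnit_iff_abs_eq.2 hγ, hh⟩
  · rintro ⟨a, γ, ha0, ha1, hγ, hh⟩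
    exact ⟨a, γ, ha0, ha1, Int.isUnit_iff_abs_eq.1 hγ, hh⟩

lemma recurrent_iff (h : Matrix (Fin d) (Fin d) ℝ) :
    Recurrent h ↔ TH314.CSD.Recurrent h := by
  unfold Recurrent TH314.CSD.Recurrent
  simp only [closure_eq]

lemma minB_of_recurrent {h : Matrix (Fin d) (Fin d) ℝ} (hh : TH314.CSD.Recurrent h) :
    Y327.MinB id (closure (H715R2.Orb h)) := by
  refine ⟨isClosed_closure, ⟨h, subset_closure (H715R2.mem_orb_self h)⟩,
    Y327.invB_of_inv (TH314.CSD.inv_closure h) id, fun Z hZ hZc hZne hZinv => ?_⟩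
  obtain ⟨h', hh'⟩ := hZne
  refine subset_antisymm hZ ?_
  have h1 : closure (H715R2.Orb h') ⊆ Z := by
    refine closure_minimal ?_ hZc
    rintro _ ⟨a, γ, ha0, ha1, hγ, rfl⟩
    exact hZinv h' hh' a γ ⟨ha0, ha1, fun i j hij => by rw [show i = j from hij]⟩ hγ
  exact (TH314.CSD.orb_closure_trans (hh h' (hZ hh'))).trans h1

lemma kap_map (f : Module.End ℚ (Fin d → ℚ)) :
    Y327.kap f = (LinearMap.toMatrix' f).map (Rat.cast : ℚ → ℝ) := by
  ext a b
  rw [Y327.kap_apply, Matrix.map_apply, LinearMap.toMatrix'_apply]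

lemma mem_Sym (h : Matrix (Fin d) (Fin d) ℝ) (f : Module.End ℚ (Fin d → ℚ)) :
    LinearMap.toMatrix' f ∈ Sym h ↔ Y327.Dg h f := by
  unfold Sym Y327.Dg Matrix.IsDiag
  rw [Set.mem_ofPred_eq, kap_map]
  rfl

/-- symmetries as matrices -/
lemma exists_sym_iff (h : Matrix (Fin d) (Fin d) ℝ) (x y : Fin d → ℤ) :
    (∃ σ ∈ Sym h, σ.det = 1 ∧ ∀ a, σ.mulVec (fun b => (x b : ℚ)) a = (y a : ℚ)) ↔
    ∃ f : Module.End ℚ (Fin d → ℚ), Y327.Dg h f ∧ (LinearMap.toMatrix' f).det = 1 ∧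
      f (Y327.RatSpan.iQ x) = Y327.RatSpan.iQ y := by
  constructor
  · rintro ⟨σ, hσ, hdet, hxy⟩
    refine ⟨Matrix.toLin' σ, ?_, ?_, ?_⟩
    · exact (mem_Sym h _).1 (by rw [LinearMap.toMatrix'_toLin']; exact hσ)
    · rw [LinearMap.toMatrix'_toLin']; exact hdet
    · rw [Matrix.toLin'_apply]
      funext a
      exact hxy a
  · rintro ⟨f, hf, hdet, hxy⟩
    refine ⟨LinearMap.toMatrix' f, (mem_Sym h f).2 hf, hdet, fun a => ?_⟩
    rw [LinearMap.toMatrix'_mulVec]
    exact congrFun hxy a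

theorem result (d : ℕ) (hd : 3 ≤ d) (g : Matrix (Fin d) (Fin d) ℝ) (hg : g.det ≠ 0)
    (hint : ¬ PropInt g) (ν : ℝ) (hν : 0 < ν) (hF : ∀ x : Fin d → ℤ, x ≠ 0 → ν ≤ |F g x|) :
    (∀ h₀ ∈ OrbitClosure g, Recurrent h₀ → ∃ s : ℕ, 1 < s ∧ s ∣ d ∧
      -- 1. the generic forms
      (∀ V : Set (Matrix (Fin d) (Fin d) ℝ), IsOpen V → (V ∩ OrbitClosure h₀).Nonempty →
        ∃ h ∈ V ∩ OrbitClosure h₀,
          (∀ x y : Fin d → ℤ, x ≠ 0 → y ≠ 0 → (F h x = F h y ↔
            ∃ σ ∈ Sym h, σ.det = 1 ∧ ∀ a, σ.mulVec (fun b => (x b : ℚ)) a = (y a : ℚ))) ∧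
          (d.Prime → ∀ x y : Fin d → ℤ, x ≠ 0 → y ≠ 0 → F h x = F h y → x = y) ∧
          ∀ U : Set ℝ, IsOpen U → (∃ x : Fin d → ℤ, x ≠ 0 ∧ F h₀ x ∈ U) →
            ∃ c X₀ : ℝ, 0 < c ∧ ∀ X, X₀ ≤ X →
              c * Real.log X ^ (d - d / s) ≤ ((Values h U X).ncard : ℝ)) ∧
      -- 2. the recurrent form
      (∀ U : Set ℝ, IsOpen U → (∃ x : Fin d → ℤ, x ≠ 0 ∧ F h₀ x ∈ U) →
        ∃ c X₀ : ℝ, 0 < c ∧ ∀ X, X₀ ≤ X → ∃ γ : Matrix (Fin d) (Fin d) ℤ, |γ.det| = 1 ∧
          c * Real.log X ^ (d - d / s) ≤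
            ((Values (h₀ * γ.map (Int.cast : ℤ → ℝ)) U X).ncard : ℝ))) ∧
    -- 3. the counterexample
    (∀ T : ℝ, (∀ h : Matrix (Fin d) (Fin d) ℝ, |h.det| = |g.det| →
        ∃ x : Fin d → ℤ, x ≠ 0 ∧ |F h x| < T) →
      ∃ c X₀ : ℝ, 0 < c ∧ ∀ X, X₀ ≤ X → ∃ γ : Matrix (Fin d) (Fin d) ℤ, |γ.det| = 1 ∧
        c * Real.log X ^ (d - d / d.minFac) ≤
          ((Values (g * γ.map (Int.cast : ℤ → ℝ)) (Set.Ioo (-T) T) X).ncard : ℝ)) := by
  classical
  have hd0 : 0 < d := by omega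
  have hrecval : ∀ h₀ : Matrix (Fin d) (Fin d) ℝ, TH314.CSD.Recurrent h₀ →
      ∀ U : Set ℝ, IsOpen U → (∃ x : Fin d → ℤ, x ≠ 0 ∧ F h₀ x ∈ U) →
      ∀ h' ∈ closure (H715R2.Orb h₀), ∃ x : Fin d → ℤ, x ≠ 0 ∧ F h' x ∈ U := by
    rintro h₀ hrec U hU ⟨x, hx, hxU⟩ h' hh'
    exact TH314.CSD.exists_value_near (hrec h' hh') hx (hU.mem_nhds hxU)
  refine ⟨fun h₀ hh₀ hrec => ?_, fun T hT => ?_⟩
  · rw [closure_eq] at hh₀
    have hrec' := (recurrent_iff h₀).1 hrec
    have hYg : closure (H715R2.Orb h₀) ⊆ closure (H715R2.Orb g) :=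
      TH314.CSD.orb_closure_trans hh₀
    obtain ⟨s, hs1, hsd, hgen⟩ := Y327.generic_values hd hg hν hF hint hYg
      (minB_of_recurrent hrec') (TH314.CSD.inv_closure h₀)
    refine ⟨s, hs1, hsd, fun V hV hVne => ?_, fun U hU hUval => ?_⟩
    · rw [closure_eq] at hVne ⊢
      obtain ⟨h, hh, h1, h2, h3⟩ := hgen V hV hVne
      refine ⟨h, hh, fun x y hx hy => ?_, h2, fun U hU hUval =>
        h3 U hU (hrecval h₀ hrec' U hU hUval)⟩
      rw [exists_sym_iff]
      refine ⟨fun hxy => h1 x y hx hy hxy, ?_⟩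
      rintro ⟨f, hf, hdet, hfxy⟩
      have hu : IsUnit h.det := by
        rw [isUnit_iff_ne_zero, ← abs_ne_zero, H715R2.abs_det_closure (hYg hh.2), abs_ne_zero]
        exact hg
      have h4 := Y327.FF_sym hu hf hfxy
      rw [hdet, Rat.cast_one, one_mul] at h4
      exact h4.symm
    · obtain ⟨h, hh, -, -, h3⟩ := hgen Set.univ isOpen_univ
        (by rw [Set.univ_inter]; exact ⟨h₀, subset_closure (H715R2.mem_orb_self h₀)⟩)
      rw [Set.univ_inter] at hh
      obtain ⟨c, X₀, hc, hcount⟩ := h3 U hU (hrecval h₀ hrec' U hU hUval)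
      refine ⟨c, X₀, hc, fun X hX => ?_⟩
      obtain ⟨γ, hγ, hle⟩ := Y327.vals_approx hh hU X
      exact ⟨γ, Int.isUnit_iff_abs_eq.1 hγ, (hcount X hX).trans (Nat.cast_le.2 hle)⟩
  · obtain ⟨M, hMg, hM⟩ := Y327.exists_minB hd0 id (abs_pos.2 hg) hν isClosed_closure
      ⟨g, subset_closure (H715R2.mem_orb_self g)⟩
      (Y327.invB_of_inv (TH314.CSD.inv_closure g) id)
      (fun _ hh => H715R2.abs_det_closure hh) (fun _ hh => H715R2.hasNu_closure hF hh)
    have hMinv : H715R2.Inv M := fun h hh a γ ha0 ha1 hγ =>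
      hM.inv h hh a γ ⟨ha0, ha1, fun i j hij => by rw [show i = j from hij]⟩ hγ
    obtain ⟨s, hs1, hsd, hgen⟩ := Y327.generic_values hd hg hν hF hint hMg hM hMinv
    obtain ⟨h, hh, -, -, h3⟩ := hgen Set.univ isOpen_univ (by rw [Set.univ_inter]; exact hM.ne)
    rw [Set.univ_inter] at hh
    obtain ⟨c, X₀, hc, hcount⟩ := h3 (Set.Ioo (-T) T) isOpen_Ioo (fun h' hh' => by
      obtain ⟨x, hx, hxT⟩ := hT h' (H715R2.abs_det_closure (hMg hh'))
      exact ⟨x, hx, abs_lt.1 hxT⟩)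
    refine ⟨c, max X₀ (Real.exp 1), hc, fun X hX => ?_⟩
    obtain ⟨γ, hγ, hle⟩ := Y327.vals_approx (hMg hh) isOpen_Ioo X
    refine ⟨γ, Int.isUnit_iff_abs_eq.1 hγ, ?_⟩
    have h4 : 1 ≤ Real.log X := by
      have h5 : Real.exp 1 ≤ X := (le_max_right _ _).trans hX
      have h6 : 0 < X := (Real.exp_pos 1).trans_le h5
      exact (Real.le_log_iff_exp_le h6).2 h5
    have h5 : Real.log X ^ (d - d / d.minFac) ≤ Real.log X ^ (d - d / s) := by
      refine pow_le_pow_right₀ h4 ?_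
      have h6 : d / s ≤ d / d.minFac :=
        Nat.div_le_div_left (Nat.minFac_le_of_dvd hs1 hsd) (Nat.minFac_pos d)
      omega
    exact ((mul_le_mul_of_nonneg_left h5 hc.le).trans
      (hcount X ((le_max_left _ _).trans hX))).trans (Nat.cast_le.2 hle)

end Pool.Agent.Results.MP_edeaa2_an.ManyValues
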