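import Mathlib
import Pool.Agent.Y327.Root
import Pool.Agent.TH314.CSD.Scales

/-! # MP_edeaa2_an: the root directions of a minimal set

Let `d ≥ 3`.

1. Let `g` be a counterexample to the conjecture of Cassels and Swinnerton-Dyer (the product of the
   rows of `g` is bounded away from zero at the nonzero integer points and is not proportional to an
   integral form), and let `M` be the orbit closure of a recurrent form `h₀` in the orbit closure of
   `g`. The rational matrices `σ` for which `h₀ σ h₀⁻¹` is diagonal form a field of degree `d / s`,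
   `s > 1`. Call `i` and `j` equivalent if all these diagonal matrices have the same entries at `i`
   and `j`. Then every class has `s` elements, and for `i ≠ j` and every `t ≠ 0` there is a matrix
   `h` in `M` such that also `h` with `t` times its row `j` added to its row `i` lies in `M` if and
   only if `i` and `j` are equivalent.
2. Let the product of the rows of `g` be bounded away from zero at the nonzero integer points, let
   `t ≠ 0`, let `i` be an index, and let `J` be a set of more than `d - p` indices `j ≠ i`, where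
   `p` is the smallest prime factor of `d` (if `d` is prime, `J` may be any single index). The
   product is proportional to an integral form if and only if there are no `h` in the orbit closure
   of `g` and `j` in `J` such that also `h` with `t` times its row `j` added to its row `i` lies in
   the orbit closure. -/

set_option autoImplicit false

open Filter Topology

namespace Pool.Agent.Results.MP_edeaa2_an.RootDirections

variable {d : ℕ}

/-- the product of the linear forms given by the rows of `h`, at an integer point -/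
noncomputable def F (h : Matrix (Fin d) (Fin d) ℝ) (x : Fin d → ℤ) : ℝ :=
  ∏ i : Fin d, ∑ j : Fin d, h i j * (x j : ℝ)

/-- the product of the linear forms is proportional to a form with integer coefficients -/
def PropInt (h : Matrix (Fin d) (Fin d) ℝ) : Prop :=
  ∃ c : ℝ, c ≠ 0 ∧ ∀ m : Fin d →₀ ℕ, ∃ z : ℤ, MvPolynomial.coeff m
    (c • (∏ i : Fin d, ∑ j : Fin d,
      MvPolynomial.C (h i j) * MvPolynomial.X j : MvPolynomial (Fin d) ℝ)) = (z : ℝ)

/-- the product of the linear forms is bounded away from zero at the nonzero integer points -/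
def BoundedBelow (h : Matrix (Fin d) (Fin d) ℝ) : Prop :=
  ∃ ν : ℝ, 0 < ν ∧ ∀ x : Fin d → ℤ, x ≠ 0 → ν ≤ |F h x|

/-- The closure of the set of matrices `diag(a) g γ` with `a` positive of product one and `γ`
integral of determinant `±1`. -/
def OrbitClosure (g : Matrix (Fin d) (Fin d) ℝ) : Set (Matrix (Fin d) (Fin d) ℝ) :=
  closure {h | ∃ (a : Fin d → ℝ) (γ : Matrix (Fin d) (Fin d) ℤ), (∀ i, 0 < a i) ∧ ∏ i, a i = 1 ∧
    |γ.det| = 1 ∧ h = Matrix.diagonal a * g * γ.map (Int.cast : ℤ → ℝ)}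

/-- The orbit closure of `h` is minimal. -/
def Recurrent (h : Matrix (Fin d) (Fin d) ℝ) : Prop :=
  ∀ h' ∈ OrbitClosure h, h ∈ OrbitClosure h'

/-- `t` times the row `j` is added to the row `i`. -/
def addRow (h : Matrix (Fin d) (Fin d) ℝ) (i j : Fin d) (t : ℝ) : Matrix (Fin d) (Fin d) ℝ :=
  h.updateRow i (h i + t • h j)

/-- the rational matrices which `h` conjugates to diagonal matrices -/
def Sym (h : Matrix (Fin d) (Fin d) ℝ) : Set (Matrix (Fin d) (Fin d) ℚ) :=
  {σ | (h * σ.map (Rat.cast : ℚ → ℝ) * h⁻¹).IsDiag}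

/-- no matrix in `Sym h` has different eigenvalues at the rows `i` and `j` of `h` -/
def Same (h : Matrix (Fin d) (Fin d) ℝ) (i j : Fin d) : Prop :=
  ∀ σ ∈ Sym h, (h * σ.map (Rat.cast : ℚ → ℝ) * h⁻¹) i i = (h * σ.map (Rat.cast : ℚ → ℝ) * h⁻¹) j j

lemma closure_eq (g : Matrix (Fin d) (Fin d) ℝ) : OrbitClosure g = closure (H715R2.Orb g) := by
  unfold OrbitClosure H715R2.Orb
  congr 1
  ext h
  constructor
  · rintro ⟨a, γ, ha0, ha1, hγ, hh⟩
    exact ⟨a, γ, ha0, ha1, Int.isUnit_iff_abs_eq.2 hγ, hh⟩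
  · rintro ⟨a, γ, ha0, ha1, hγ, hh⟩
    exact ⟨a, γ, ha0, ha1, Int.isUnit_iff_abs_eq.1 hγ, hh⟩

lemma addRow_eq (h : Matrix (Fin d) (Fin d) ℝ) (i j : Fin d) (t : ℝ) :
    addRow h i j t = Matrix.transvection i j t * h := by
  rw [← Y327.Md_eq_transvection]
  funext a
  by_cases ha : a = i
  · subst ha
    rw [Y327.Md_row, addRow, Matrix.updateRow_self]
    congr 1
    funext b
    simp [Matrix.vecMul, dotProduct]
  · rw [Y327.Md_row_ne _ _ ha, addRow, Matrix.updateRow_ne ha]

lemma recurrent_iff (h : Matrix (Fin d) (Fin d) ℝ) :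
    Recurrent h ↔ TH314.CSD.Recurrent h := by
  unfold Recurrent TH314.CSD.Recurrent
  simp only [closure_eq]

lemma minB_of_recurrent {h : Matrix (Fin d) (Fin d) ℝ} (hh : TH314.CSD.Recurrent h) :
    Y327.MinB id (closure (H715R2.Orb h)) := by
  refine ⟨isClosed_closure, ⟨h, subset_closure (H715R2.mem_orb_self h)⟩,
    Y327.invB_of_inv (TH314.CSD.inv_closure h) id, fun Z hZ hZc hZne hZinv => ?_⟩
  obtain ⟨h', hh'⟩ := hZne
  refine subset_antisymm hZ ?_
  have h1 : closure (H715R2.Orb h') ⊆ Z := by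
    refine closure_minimal ?_ hZc
    rintro _ ⟨a, γ, ha0, ha1, hγ, rfl⟩
    exact hZinv h' hh' a γ ⟨ha0, ha1, fun i j hij => by rw [show i = j from hij]⟩ hγ
  exact (TH314.CSD.orb_closure_trans (hh h' (hZ hh'))).trans h1

lemma kap_map (f : Module.End ℚ (Fin d → ℚ)) :
    Y327.kap f = (LinearMap.toMatrix' f).map (Rat.cast : ℚ → ℝ) := by
  ext a b
  rw [Y327.kap_apply, Matrix.map_apply, LinearMap.toMatrix'_apply]

lemma mem_Sym (h : Matrix (Fin d) (Fin d) ℝ) (f : Module.End ℚ (Fin d → ℚ)) :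
    LinearMap.toMatrix' f ∈ Sym h ↔ Y327.Dg h f := by
  unfold Sym Y327.Dg Matrix.IsDiag
  rw [Set.mem_ofPred_eq, kap_map]
  rfl

lemma same_iff (h : Matrix (Fin d) (Fin d) ℝ) (i j : Fin d) : Same h i j ↔ Y327.Sam h i j := by
  constructor
  · intro hs f hf
    have h1 := hs _ ((mem_Sym h f).2 hf)
    rw [kap_map]
    exact h1
  · intro hs σ hσ
    have h1 := hs (Matrix.toLin' σ) ((mem_Sym h _).1 (by rw [LinearMap.toMatrix'_toLin']; exact hσ))
    rw [kap_map, LinearMap.toMatrix'_toLin'] at h1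
    exact h1

/-- the symmetries as an algebra of matrices -/
lemma exists_field {h : Matrix (Fin d) (Fin d) ℝ} (hu : IsUnit h.det)
    (hf : IsField (Y327.symA h hu)) : ∃ 𝔽 : Subalgebra ℚ (Matrix (Fin d) (Fin d) ℚ),
      (𝔽 : Set (Matrix (Fin d) (Fin d) ℚ)) = Sym h ∧ IsField 𝔽 ∧
      Module.finrank ℚ 𝔽 = Module.finrank ℚ (Y327.symA h hu) := by
  let e : Module.End ℚ (Fin d → ℚ) ≃ₐ[ℚ] Matrix (Fin d) (Fin d) ℚ := LinearMap.toMatrixAlgEquiv'
  have he : ∀ f, e f = LinearMap.toMatrix' f := fun f => rfl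
  let e' := e.subalgebraMap (Y327.symA h hu)
  refine ⟨(Y327.symA h hu).map (e : Module.End ℚ (Fin d → ℚ) →ₐ[ℚ] Matrix (Fin d) (Fin d) ℚ),
    ?_, ?_, ?_⟩
  · ext σ
    rw [SetLike.mem_coe, Subalgebra.mem_map]
    constructor
    · rintro ⟨f, hf, rfl⟩
      exact (mem_Sym h f).2 hf
    · intro hσ
      refine ⟨Matrix.toLin' σ, ?_, ?_⟩
      · exact (mem_Sym h _).1 (by rw [LinearMap.toMatrix'_toLin']; exact hσ)
      · exact LinearMap.toMatrix'_toLin' σ
  · exact e'.symm.toMulEquiv.isField hf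
  · exact e'.toLinearEquiv.finrank_eq.symm

/-- the structure of a minimal set -/
lemma structure_min (hd : 3 ≤ d) {g : Matrix (Fin d) (Fin d) ℝ} (hg : g.det ≠ 0)
    (hint : ¬ PropInt g) {ν : ℝ} (hν : 0 < ν) (hF : ∀ x : Fin d → ℤ, x ≠ 0 → ν ≤ |F g x|)
    {M : Set (Matrix (Fin d) (Fin d) ℝ)} (hMg : M ⊆ closure (H715R2.Orb g))
    (hM : Y327.MinB id M) {h₀ : Matrix (Fin d) (Fin d) ℝ} (hh₀ : h₀ ∈ M) :
    ∃ s : ℕ, 1 < s ∧ (∃ 𝔽 : Subalgebra ℚ (Matrix (Fin d) (Fin d) ℚ),
        (𝔽 : Set (Matrix (Fin d) (Fin d) ℚ)) = Sym h₀ ∧ IsField 𝔽 ∧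
        Module.finrank ℚ 𝔽 * s = d) ∧
      (∀ i, Nat.card {j // Same h₀ i j} = s) ∧
      ∀ i j, i ≠ j → ∀ t : ℝ, t ≠ 0 → ((∃ h ∈ M, addRow h i j t ∈ M) ↔ Same h₀ i j) := by
  classical
  have hd0 : 0 < d := by omega
  have hMnu : ∀ h ∈ M, H715R2.HasNu h ν := fun h hh => H715R2.hasNu_closure hF (hMg hh)
  have hu : IsUnit h₀.det := by
    rw [isUnit_iff_ne_zero, ← abs_ne_zero, H715R2.abs_det_closure (hMg hh₀), abs_ne_zero]
    exact hg
  obtain ⟨s, hs1, hs2⟩ := Y327.class_sizes hd hg hν hF hMg hM hh₀ hu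
  have hcard : ∀ i, Nat.card {j // Same h₀ i j} = s := by
    intro i
    rw [← hs2 i]
    exact Nat.card_congr (Equiv.subtypeEquivRight fun j => same_iff h₀ i j)
  obtain ⟨𝔽, h𝔽1, h𝔽2, h𝔽3⟩ := exists_field hu (Y327.symA_isField hd0 hν (hMnu _ hh₀) hu)
  refine ⟨s, ?_, ⟨𝔽, h𝔽1, h𝔽2, by rw [h𝔽3, mul_comm]; exact hs1⟩, hcard, ?_⟩
  · set i₀ : Fin d := ⟨0, hd0⟩ with hi₀
    obtain ⟨j, hji, hj⟩ := Y327.class_nontrivial hd hg hν hF hint hMg hM hh₀ i₀
    rw [← hs2 i₀, Nat.card_eq_fintype_card, Fintype.one_lt_card_iff]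
    exact ⟨⟨i₀, Y327.Sam.refl _ _⟩, ⟨j, hj⟩, fun h => hji (congrArg Subtype.val h).symm⟩
  · intro i j hij t ht
    rw [same_iff]
    constructor
    · rintro ⟨h, hh, hh'⟩
      by_contra hcon
      rw [addRow_eq] at hh'
      exact Y327.no_root_dir hd hg hν hF hMg hM hh₀ hcon ht hh hh'
    · intro hs
      obtain ⟨h, hh, hh'⟩ := Y327.root_dir hd hg hν hF hMg hM hh₀ hij hs t
      exact ⟨h, hh, by rw [addRow_eq]; exact hh'⟩

theorem result (d : ℕ) (hd : 3 ≤ d) :
    -- 1. the structure of a counterexample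
    (∀ g : Matrix (Fin d) (Fin d) ℝ, g.det ≠ 0 → ¬ PropInt g → BoundedBelow g →
      ∀ h₀ ∈ OrbitClosure g, Recurrent h₀ →
        ∃ s : ℕ, 1 < s ∧
          (∃ 𝔽 : Subalgebra ℚ (Matrix (Fin d) (Fin d) ℚ),
            (𝔽 : Set (Matrix (Fin d) (Fin d) ℚ)) = Sym h₀ ∧ IsField 𝔽 ∧
            Module.finrank ℚ 𝔽 * s = d) ∧
          (∀ i, Nat.card {j // Same h₀ i j} = s) ∧
          ∀ i j, i ≠ j → ∀ t : ℝ, t ≠ 0 →
            ((∃ h ∈ OrbitClosure h₀, addRow h i j t ∈ OrbitClosure h₀) ↔ Same h₀ i j)) ∧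
    -- 2. a criterion
    (∀ g : Matrix (Fin d) (Fin d) ℝ, g.det ≠ 0 → BoundedBelow g →
      ∀ (i : Fin d) (J : Finset (Fin d)), i ∉ J → d < J.card + d.minFac → ∀ t : ℝ, t ≠ 0 →
        (PropInt g ↔ ∀ h ∈ OrbitClosure g, ∀ j ∈ J, addRow h i j t ∉ OrbitClosure g)) := by
  classical
  have hd0 : 0 < d := by omega
  refine ⟨?_, ?_⟩
  · rintro g hg hint ⟨ν, hν, hF⟩ h₀ hh₀ hrec
    rw [closure_eq] at hh₀
    have hM := minB_of_recurrent ((recurrent_iff h₀).1 hrec)
    have hMg : closure (H715R2.Orb h₀) ⊆ closure (H715R2.Orb g) :=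
      TH314.CSD.orb_closure_trans hh₀
    have h1 := structure_min hd hg hint hν hF hMg hM
      (subset_closure (H715R2.mem_orb_self h₀))
    rw [closure_eq]
    exact h1
  · rintro g hg ⟨ν, hν, hF⟩ i J hiJ hJ t ht
    constructor
    · intro hP h hh j hj hh'
      have hij : j ≠ i := fun h0 => hiJ (h0 ▸ hj)
      rw [closure_eq] at hh hh'
      have hdet : h.det ≠ 0 := by
        rw [← abs_ne_zero, H715R2.abs_det_closure hh, abs_ne_zero]
        exact hg
      have h1 := Y327.propInt_closure hd hg hν hF hP hh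
      have h2 := Y327.propInt_closure hd hg hν hF hP hh'
      have h3 := H715R2.hasNu_closure hF hh'
      rw [addRow_eq, ← Y327.Md_eq_transvection] at h2 h3
      have h4 := Y327.unique_factor (by omega) hdet hν (H715R2.hasNu_closure hF hh) h1
        (w := fun l => if l = j then t else 0) (by simp [hij.symm]) h3 h2
      have h5 := congrFun h4 j
      simp only [if_true, Pi.zero_apply] at h5
      exact ht h5
    · intro hno
      by_contra hint
      obtain ⟨M, hMg, hM⟩ := Y327.exists_minB hd0 id (abs_pos.2 hg) hν isClosed_closure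
        ⟨g, subset_closure (H715R2.mem_orb_self g)⟩
        (Y327.invB_of_inv (TH314.CSD.inv_closure g) id)
        (fun h hh => H715R2.abs_det_closure hh) (fun h hh => H715R2.hasNu_closure hF hh)
      obtain ⟨h₀, hh₀⟩ := hM.ne
      obtain ⟨s, hs1, ⟨𝔽, -, -, hs2⟩, hcard, hroot⟩ := structure_min hd hg hint hν hF hMg hM hh₀
      have hsd : s ∣ d := ⟨_, by rw [mul_comm]; exact hs2.symm⟩
      have hps : d.minFac ≤ s := Nat.minFac_le_of_dvd hs1 hsd
      -- the class of `i` meets `J`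
      have hcl := hcard i
      rw [Nat.card_eq_fintype_card, Fintype.card_subtype] at hcl
      set C := Finset.univ.filter (fun j => Same h₀ i j) with hC
      have hiC : i ∈ C := by
        rw [hC, Finset.mem_filter]
        exact ⟨Finset.mem_univ _, (same_iff h₀ i i).2 (Y327.Sam.refl _ _)⟩
      obtain ⟨j, hj⟩ : (C ∩ J).Nonempty := by
        by_contra hcon
        rw [Finset.not_nonempty_iff_eq_empty] at hcon
        have h1 := Finset.card_union_of_disjoint (Finset.disjoint_iff_inter_eq_empty.2 hcon)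
        have h2 : (C ∪ J).card ≤ d := by
          have := Finset.card_le_univ (C ∪ J)
          rwa [Fintype.card_fin] at this
        omega
      rw [Finset.mem_inter, hC, Finset.mem_filter] at hj
      obtain ⟨⟨-, hsame⟩, hjJ⟩ := hj
      have hij : i ≠ j := fun h0 => hiJ (h0 ▸ hjJ)
      obtain ⟨h, hh, hh'⟩ := (hroot i j hij t ht).2 hsame
      refine hno h ?_ j hjJ ?_
      · rw [closure_eq]; exact hMg hh
      · rw [closure_eq]; exact hMg hh'

end Pool.Agent.Results.MP_edeaa2_an.RootDirections
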