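import Mathlib
import Pool.Agent.Y327.Meet
import Pool.Agent.TH314.CSD.Scales

/-! # MP_edeaa2_an: the conjecture of Cassels and Swinnerton-Dyer as a recurrence property

Let `d ≥ 3`. The diagonal group of rank `d - 1` acts on the matrices modulo `GL_d(ℤ)`; the wall of
`i ≠ j` is its subgroup `a i = a j` of rank `d - 2`. Let the product of the rows of `g` be bounded
away from zero at the nonzero integer points.

1. If the product is proportional to an integral form, then for all `h` in the orbit closure of `g`,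
   all `i ≠ j` and all diagonal `a` the matrix `a h` lies in the orbit closure of `h` under the wall
   of `i, j`.
2. Let `M` be the orbit closure of a recurrent `h₀` in the orbit closure of `g`, and `i ≠ j`. There
   is `h` in `M` for which no `a h` with `a i ≠ a j` lies in the orbit closure of `h` under the wall
   of `i, j` if and only if all rational matrices `σ` for which `h₀ σ h₀⁻¹` is diagonal have the same
   diagonal entries at `i` and `j`.
3. Let `i` be an index and `J` a set of more than `d - p` indices `j ≠ i`, `p` the smallest prime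
   factor of `d` (if `d` is prime, then `J` may be any single index). The product is proportional to
   an integral form if and only if for all `h` in the orbit closure of `g` and all `j` in `J` at
   least one `a h` with `a i ≠ a j` lies in the orbit closure of `h` under the wall of `i, j`.
4. So, for each fixed pair `i ≠ j`, the conjecture of Cassels and Swinnerton-Dyer in dimension `d` is
   equivalent to: every `g` whose form is bounded away from zero has at least one matrix `a g` with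
   `a i ≠ a j` in its orbit closure under the wall of `i, j`. -/

set_option autoImplicit false

open Filter Topology

namespace Pool.Agent.Results.MP_edeaa2_an.WallRecurrence

variable {d : ℕ}

/-- the product of the linear forms given by the rows of `h`, at an integer point -/
noncomputable def F (h : Matrix (Fin d) (Fin d) ℝ) (x : Fin d → ℤ) : ℝ :=
  ∏ i : Fin d, ∑ j : Fin d, h i j * (x j : ℝ)

/-- the product of the linear forms is proportional to a form with integer coefficients -/
def PropInt (h : Matrix (Fin d) (Fin d) ℝ) : Prop :=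
  ∃ c : ℝ, c ≠ 0 ∧ ∀ m : Fin d →₀ ℕ, ∃ z : ℤ, MvPolynomial.coeff m
    (c • (∏ i : Fin d, ∑ j : Fin d,
      MvPolynomial.C (h i j) * MvPolynomial.X j : MvPolynomial (Fin d) ℝ)) = (z : ℝ)

/-- the product of the linear forms is bounded away from zero at the nonzero integer points -/
def BoundedBelow (h : Matrix (Fin d) (Fin d) ℝ) : Prop :=
  ∃ ν : ℝ, 0 < ν ∧ ∀ x : Fin d → ℤ, x ≠ 0 → ν ≤ |F h x|

/-- The closure of the set of matrices `diag(a) g γ` with `a` positive of product one and `γ`
integral of determinant `±1`. -/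
def OrbitClosure (g : Matrix (Fin d) (Fin d) ℝ) : Set (Matrix (Fin d) (Fin d) ℝ) :=
  closure {h | ∃ (a : Fin d → ℝ) (γ : Matrix (Fin d) (Fin d) ℤ), (∀ i, 0 < a i) ∧ ∏ i, a i = 1 ∧
    |γ.det| = 1 ∧ h = Matrix.diagonal a * g * γ.map (Int.cast : ℤ → ℝ)}

/-- The closure of the set of matrices `diag(a) g γ` with `a` positive of product one, `a i = a j`,
and `γ` integral of determinant `±1`. -/
def WallClosure (i j : Fin d) (g : Matrix (Fin d) (Fin d) ℝ) : Set (Matrix (Fin d) (Fin d) ℝ) :=
  closure {h | ∃ (a : Fin d → ℝ) (γ : Matrix (Fin d) (Fin d) ℤ), (∀ k, 0 < a k) ∧ ∏ k, a k = 1 ∧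
    a i = a j ∧ |γ.det| = 1 ∧ h = Matrix.diagonal a * g * γ.map (Int.cast : ℤ → ℝ)}

/-- The orbit closure of `h` is minimal. -/
def Recurrent (h : Matrix (Fin d) (Fin d) ℝ) : Prop :=
  ∀ h' ∈ OrbitClosure h, h ∈ OrbitClosure h'

/-- no rational matrix which `h` conjugates to a diagonal matrix has different eigenvalues at the
rows `i` and `j` of `h` -/
def Same (h : Matrix (Fin d) (Fin d) ℝ) (i j : Fin d) : Prop :=
  ∀ σ : Matrix (Fin d) (Fin d) ℚ, (h * σ.map (Rat.cast : ℚ → ℝ) * h⁻¹).IsDiag →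
    (h * σ.map (Rat.cast : ℚ → ℝ) * h⁻¹) i i = (h * σ.map (Rat.cast : ℚ → ℝ) * h⁻¹) j j

/-- some multiple `a h` with `a i ≠ a j` lies in the orbit closure of `h` under the wall -/
def RecurrentOff (i j : Fin d) (h : Matrix (Fin d) (Fin d) ℝ) : Prop :=
  ∃ a : Fin d → ℝ, (∀ k, 0 < a k) ∧ ∏ k, a k = 1 ∧ a i ≠ a j ∧
    Matrix.diagonal a * h ∈ WallClosure i j h

lemma closure_eq (g : Matrix (Fin d) (Fin d) ℝ) : OrbitClosure g = closure (H715R2.Orb g) := by
  unfold OrbitClosure H715R2.Orb
  congr 1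
  ext h
  constructor
  · rintro ⟨a, γ, ha0, ha1, hγ, hh⟩
    exact ⟨a, γ, ha0, ha1, Int.isUnit_iff_abs_eq.2 hγ, hh⟩
  · rintro ⟨a, γ, ha0, ha1, hγ, hh⟩
    exact ⟨a, γ, ha0, ha1, Int.isUnit_iff_abs_eq.1 hγ, hh⟩

lemma wall_eq (i j : Fin d) (g : Matrix (Fin d) (Fin d) ℝ) :
    WallClosure i j g = closure (Y327.OrbB (Y327.pij i j) g) := by
  unfold WallClosure Y327.OrbB
  congr 1
  ext h
  constructor
  · rintro ⟨a, γ, ha0, ha1, haij, hγ, hh⟩
    exact ⟨a, γ, Y327.pij_iff.2 ⟨ha0, ha1, haij⟩, Int.isUnit_iff_abs_eq.2 hγ, hh⟩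
  · rintro ⟨a, γ, ha, hγ, hh⟩
    obtain ⟨h1, h2, h3⟩ := Y327.pij_iff.1 ha
    exact ⟨a, γ, h1, h2, h3, Int.isUnit_iff_abs_eq.1 hγ, hh⟩

lemma bb_id {a : Fin d → ℝ} (h0 : ∀ k, 0 < a k) (h1 : ∏ k, a k = 1) : Y327.BB id a :=
  ⟨h0, h1, fun k l hkl => by rw [show k = l from hkl]⟩

/-- permuting the rows -/
lemma wall_perm (σ : Equiv.Perm (Fin d)) {i j : Fin d} {g h : Matrix (Fin d) (Fin d) ℝ}
    (hh : h ∈ WallClosure i j g) :
    h.submatrix σ id ∈ WallClosure (σ.symm i) (σ.symm j) (g.submatrix σ id) := by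
  have hc : Continuous (fun h : Matrix (Fin d) (Fin d) ℝ => h.submatrix σ id) :=
    Continuous.matrix_submatrix continuous_id _ _
  refine map_mem_closure (f := fun h : Matrix (Fin d) (Fin d) ℝ => h.submatrix σ id) hc hh ?_
  rintro _ ⟨a, γ, ha0, ha1, haij, hγ, rfl⟩
  refine ⟨fun k => a (σ k), γ, fun k => ha0 _, ?_, ?_, hγ, ?_⟩
  · rw [← ha1]
    exact Equiv.prod_comp σ a
  · simp only [Equiv.apply_symm_apply]
    exact haij
  · ext k l
    simp only [Matrix.submatrix_apply, id, Matrix.mul_assoc, Matrix.diagonal_mul]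
    rfl

lemma F_perm (σ : Equiv.Perm (Fin d)) (h : Matrix (Fin d) (Fin d) ℝ) (x : Fin d → ℤ) :
    F (h.submatrix σ id) x = F h x := by
  unfold F
  simp only [Matrix.submatrix_apply, id]
  exact Equiv.prod_comp σ (fun k => ∑ j, h k j * (x j : ℝ))

lemma recurrent_iff (h : Matrix (Fin d) (Fin d) ℝ) :
    Recurrent h ↔ TH314.CSD.Recurrent h := by
  unfold Recurrent TH314.CSD.Recurrent
  simp only [closure_eq]

lemma minB_of_recurrent {h : Matrix (Fin d) (Fin d) ℝ} (hh : TH314.CSD.Recurrent h) :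
    Y327.MinB id (closure (H715R2.Orb h)) := by
  refine ⟨isClosed_closure, ⟨h, subset_closure (H715R2.mem_orb_self h)⟩,
    Y327.invB_of_inv (TH314.CSD.inv_closure h) id, fun Z hZ hZc hZne hZinv => ?_⟩
  obtain ⟨h', hh'⟩ := hZne
  refine subset_antisymm hZ ?_
  have h1 : closure (H715R2.Orb h') ⊆ Z := by
    refine closure_minimal ?_ hZc
    rintro _ ⟨a, γ, ha0, ha1, hγ, rfl⟩
    exact hZinv h' hh' a γ ⟨ha0, ha1, fun i j hij => by rw [show i = j from hij]⟩ hγ
  exact (TH314.CSD.orb_closure_trans (hh h' (hZ hh'))).trans h1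

lemma kap_map (f : Module.End ℚ (Fin d → ℚ)) :
    Y327.kap f = (LinearMap.toMatrix' f).map (Rat.cast : ℚ → ℝ) := by
  ext a b
  rw [Y327.kap_apply, Matrix.map_apply, LinearMap.toMatrix'_apply]

lemma same_iff (h : Matrix (Fin d) (Fin d) ℝ) (i j : Fin d) : Same h i j ↔ Y327.Sam h i j := by
  constructor
  · intro hs f hf
    have h1 := hs (LinearMap.toMatrix' f) (by rw [← kap_map]; exact hf)
    rw [kap_map]
    exact h1
  · intro hs σ hσ
    have h1 := hs (Matrix.toLin' σ) (by
      unfold Y327.Dg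
      rw [kap_map, LinearMap.toMatrix'_toLin']
      exact hσ)
    rw [kap_map, LinearMap.toMatrix'_toLin'] at h1
    exact h1

lemma off_iff (i j : Fin d) (h : Matrix (Fin d) (Fin d) ℝ) :
    (∀ a, Y327.BB id a → a i ≠ a j →
      Matrix.diagonal a * h ∉ closure (Y327.OrbB (Y327.pij i j) h)) ↔ ¬ RecurrentOff i j h := by
  unfold RecurrentOff
  rw [wall_eq]
  constructor
  · rintro hno ⟨a, ha0, ha1, haij, hmem⟩
    exact hno a (bb_id ha0 ha1) haij hmem
  · intro hno a ha haij hmem
    exact hno ⟨a, ha.1, ha.2.1, haij, hmem⟩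

theorem result (d : ℕ) (hd : 3 ≤ d) :
    -- 1. integral forms
    (∀ g : Matrix (Fin d) (Fin d) ℝ, g.det ≠ 0 → BoundedBelow g → PropInt g →
      ∀ h ∈ OrbitClosure g, ∀ i j : Fin d, i ≠ j →
        ∀ a : Fin d → ℝ, (∀ k, 0 < a k) → ∏ k, a k = 1 →
          Matrix.diagonal a * h ∈ WallClosure i j h) ∧
    -- 2. minimal sets
    (∀ g : Matrix (Fin d) (Fin d) ℝ, g.det ≠ 0 → BoundedBelow g →
      ∀ h₀ ∈ OrbitClosure g, Recurrent h₀ → ∀ i j : Fin d, i ≠ j →
        ((∃ h ∈ OrbitClosure h₀, ¬ RecurrentOff i j h) ↔ Same h₀ i j)) ∧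
    -- 3. a criterion for a single form
    (∀ g : Matrix (Fin d) (Fin d) ℝ, g.det ≠ 0 → BoundedBelow g →
      ∀ (i : Fin d) (J : Finset (Fin d)), i ∉ J → d < J.card + d.minFac →
        (PropInt g ↔ ∀ h ∈ OrbitClosure g, ∀ j ∈ J, RecurrentOff i j h)) ∧
    -- 4. the conjecture in dimension `d`
    (∀ i j : Fin d, i ≠ j →
      ((∀ g : Matrix (Fin d) (Fin d) ℝ, g.det ≠ 0 → ¬ PropInt g →
          ∀ ε : ℝ, 0 < ε → ∃ x : Fin d → ℤ, x ≠ 0 ∧ |F g x| < ε) ↔
        ∀ g : Matrix (Fin d) (Fin d) ℝ, g.det ≠ 0 → BoundedBelow g → RecurrentOff i j g)) := by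
  classical
  have hd0 : 0 < d := by omega
  have part1 : ∀ g : Matrix (Fin d) (Fin d) ℝ, g.det ≠ 0 → BoundedBelow g → PropInt g →
      ∀ h ∈ OrbitClosure g, ∀ i j : Fin d, i ≠ j →
        ∀ a : Fin d → ℝ, (∀ k, 0 < a k) → ∏ k, a k = 1 →
          Matrix.diagonal a * h ∈ WallClosure i j h := by
    intro g hg ⟨ν, hν, hF⟩ hP h hh i j hij a ha0 ha1
    rw [closure_eq] at hh
    have hdet : |h.det| = |g.det| := H715R2.abs_det_closure hh
    have hdet0 : h.det ≠ 0 := by
      rw [← abs_ne_zero, hdet, abs_ne_zero]; exact hg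
    rw [wall_eq]
    exact Y327.recur_of_propInt hd hdet0 hν (H715R2.hasNu_closure hF hh)
      (Y327.propInt_closure hd hg hν hF hP hh) hij (bb_id ha0 ha1)
  have part1' : ∀ g : Matrix (Fin d) (Fin d) ℝ, g.det ≠ 0 → BoundedBelow g → PropInt g →
      ∀ h ∈ OrbitClosure g, ∀ i j : Fin d, i ≠ j → RecurrentOff i j h := by
    intro g hg hb hP h hh i j hij
    have he := Y327.ew_BB hij (c := 2) two_pos
    refine ⟨Y327.ew i j 2, he.1, he.2.1, ?_, part1 g hg hb hP h hh i j hij _ he.1 he.2.1⟩
    simp only [Y327.ew, if_true, if_neg hij.symm]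
    norm_num
  refine ⟨part1, ?_, ?_, ?_⟩
  · rintro g hg ⟨ν, hν, hF⟩ h₀ hh₀ hrec i j hij
    rw [closure_eq] at hh₀
    have hM := minB_of_recurrent ((recurrent_iff h₀).1 hrec)
    have hMg : closure (H715R2.Orb h₀) ⊆ closure (H715R2.Orb g) :=
      TH314.CSD.orb_closure_trans hh₀
    have h1 := Y327.wall_iff hd hg hν hF hMg hM (subset_closure (H715R2.mem_orb_self h₀)) hij
    rw [same_iff, ← h1, closure_eq]
    simp only [off_iff]
  · rintro g hg ⟨ν, hν, hF⟩ i J hiJ hJ
    constructor
    · intro hP h hh j hj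
      exact part1' g hg ⟨ν, hν, hF⟩ hP h hh i j (fun h0 => hiJ (h0 ▸ hj))
    · intro hrec
      by_contra hint
      obtain ⟨M, hMg, hM⟩ := Y327.exists_min_closure hd0 hg hν hF
      obtain ⟨h₀, hh₀⟩ := hM.ne
      obtain ⟨j, hj, hs⟩ := Y327.exists_sam_of_card (i := i) hd hg hν hF hint hMg hM hh₀ hJ
      have hij : i ≠ j := fun h0 => hiJ (h0 ▸ hj)
      obtain ⟨h, hh, hno⟩ := (Y327.wall_iff hd hg hν hF hMg hM hh₀ hij).2 hs
      refine (off_iff i j h).1 hno (hrec h ?_ j hj)
      rw [closure_eq]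
      exact hMg hh
  · intro i j hij
    constructor
    · intro hcsd g hg hb
      have hP : PropInt g := by
        by_contra hint
        obtain ⟨ν, hν, hF⟩ := hb
        obtain ⟨x, hx, hx1⟩ := hcsd g hg hint ν hν
        exact absurd (hF x hx) (not_le.2 hx1)
      refine part1' g hg hb hP g ?_ i j hij
      rw [closure_eq]
      exact subset_closure (H715R2.mem_orb_self g)
    · intro hrec g hg hint ε hε
      by_contra hcon
      push Not at hcon
      have hF : H715R2.HasNu g ε := fun x hx => hcon x hx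
      obtain ⟨j', hji, h, hh, hno⟩ := Y327.wall hd hg hε hF hint i
      set σ : Equiv.Perm (Fin d) := Equiv.swap j j' with hσ
      have hσi : σ i = i := Equiv.swap_apply_of_ne_of_ne hij hji.symm
      have hσs : σ.symm = σ := Equiv.symm_swap j j'
      have hdet : |h.det| = |g.det| := H715R2.abs_det_closure hh
      have hdet0 : h.det ≠ 0 := by
        rw [← abs_ne_zero, hdet, abs_ne_zero]; exact hg
      have hdet' : (h.submatrix σ id).det ≠ 0 := by
        rw [Matrix.det_permute]
        refine mul_ne_zero ?_ hdet0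
        exact_mod_cast (Equiv.Perm.sign σ).ne_zero
      obtain ⟨a, ha0, ha1, haij, hmem⟩ := hrec (h.submatrix σ id) hdet' ⟨ε, hε, fun x hx => by
        rw [F_perm]
        exact H715R2.hasNu_closure hF hh x hx⟩
      have h1 := wall_perm σ hmem
      have h2 : (h.submatrix σ id).submatrix σ id = h := by
        ext k l
        simp [Matrix.submatrix_apply, hσ]
      have h3 : (Matrix.diagonal a * h.submatrix σ id).submatrix σ id
          = Matrix.diagonal (fun k => a (σ k)) * h := by
        ext k l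
        simp [Matrix.submatrix_apply, Matrix.diagonal_mul, hσ]
      rw [h2, h3, hσs, hσi, show σ j = j' from Equiv.swap_apply_left j j', wall_eq] at h1
      refine hno (fun k => a (σ k)) (bb_id (fun k => ha0 _) ?_) ?_ h1
      · rw [← ha1]
        exact Equiv.prod_comp σ a
      · show a (σ i) ≠ a (σ j')
        rw [hσi, show σ j' = j from Equiv.swap_apply_right j j']
        exact haij

end Pool.Agent.Results.MP_edeaa2_an.WallRecurrence
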